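import Pool.Agent.Y920.HN.Stm2

/-! # HN-CATCH2: the intersection is closed and catches two-sided translates of all compact sets

(The one-sided proof is `Pool.Agent.Y748.HN.CATCH` by helper748.) -/

set_option autoImplicit false

open MeasureTheory Filter Topology

namespace Pool.Agent.Y676.HN

open Pool.Agent.Y920.HN

/-- a sequence with `(g i)⁻¹ g (i+1) ∈ V (k i)` has a limit `x` with `(g (i+1))⁻¹ x ∈ V (k (i+1))` -/
theorem lim_aux {G : Type} [Group G] [TopologicalSpace G] (F : Filt G) (k : ℕ → ℕ)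
    (hk : StrictMono k) (g : ℕ → G) (hstep : ∀ i, (g i)⁻¹ * g (i + 1) ∈ F.V (k i)) :
    ∃ x : G, ∀ i, (g (i + 1))⁻¹ * x ∈ F.V (k (i + 1)) := by
  have hkle : ∀ i, i ≤ k i := fun i => hk.le_apply
  obtain ⟨x, hx⟩ := F.complete g (fun n => F.anti (hkle n) (hstep n))
  refine ⟨x, fun i => ?_⟩
  have h4 : ∀ j, i + 1 ≤ j → (g (i + 1))⁻¹ * g j ∈ F.V (k (i + 1)) := by
    intro j hj
    induction j, hj using Nat.le_induction with
    | base =>
      rw [inv_mul_cancel]
      exact one_mem _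
    | succ j hj ih =>
      have h5 : (g (i + 1))⁻¹ * g (j + 1) =
          ((g (i + 1))⁻¹ * g j) * ((g j)⁻¹ * g (j + 1)) := by group
      rw [h5]
      exact mul_mem ih (F.anti (hk.monotone hj) (hstep j))
  have h7 : (g (i + 1))⁻¹ * x =
      ((g (i + 1))⁻¹ * g (k (i + 1))) * ((g (k (i + 1)))⁻¹ * x) := by group
  rw [h7]
  exact mul_mem (h4 _ (hkle _)) (hx _)

theorem t_CATCH2 : S_CATCH2 := by
  intro G _ _ _ F k A hk hsat hcat
  refine ⟨?_, ?_⟩
  · have h1 : ∀ i, IsClosed (A i) := by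
      intro i
      rw [← isOpen_compl_iff, isOpen_iff_mem_nhds]
      intro x hx
      have h2 : {y : G | x⁻¹ * y ∈ F.V (k (i + 1))} ∈ 𝓝 x := by
        have h3 : IsOpen {y : G | x⁻¹ * y ∈ F.V (k (i + 1))} :=
          (F.isOpen (k (i + 1))).preimage (continuous_const_mul x⁻¹)
        refine h3.mem_nhds ?_
        show x⁻¹ * x ∈ F.V (k (i + 1))
        rw [inv_mul_cancel]
        exact one_mem _
      filter_upwards [h2] with y hy hyA
      apply hx
      have h4 : y⁻¹ * x ∈ F.V (k (i + 1)) := by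
        have h5 := inv_mem hy
        have h6 : (x⁻¹ * y)⁻¹ = y⁻¹ * x := by group
        rwa [h6] at h5
      have h7 := hsat i y hyA _ h4
      rwa [mul_inv_cancel_left] at h7
    have h3 : {x : G | ∀ i, x ∈ A i} = ⋂ i, A i := by
      ext x
      simp
    rw [h3]
    exact isClosed_iInter h1
  · intro C hC
    have hfin : ∀ i, ((fun x : G => (x : G ⧸ F.V (k (i + 1)))) '' C).Finite := by
      intro i
      have hd : DiscreteTopology (G ⧸ F.V (k (i + 1))) :=
        QuotientGroup.discreteTopology (F.isOpen (k (i + 1)))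
      exact (hC.image QuotientGroup.continuous_mk).finite_of_discrete
    choose m hm1 m' hm1' hm2 using fun i => hcat i C (hfin i)
    let p : ℕ → G × G := fun n => Nat.rec (1, 1)
      (fun i x => (m i x.1 x.2 * x.1, m' i x.1 x.2 * x.2)) n
    let g : ℕ → G := fun n => (p n).1
    let g' : ℕ → G := fun n => (p n).2
    have hg : ∀ i, g (i + 1) = m i (g i) (g' i) * g i := fun i => rfl
    have hg' : ∀ i, g' (i + 1) = m' i (g i) (g' i) * g' i := fun i => rfl
    have hstep : ∀ i, (g i)⁻¹ * g (i + 1) ∈ F.V (k i) := by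
      intro i
      rw [hg]
      have h1 := (F.normal (k i)).conj_mem' (m i (g i) (g' i)) (hm1 i (g i) (g' i)) (g i)
      rwa [mul_assoc] at h1
    have hstep' : ∀ i, (g' i)⁻¹ * g' (i + 1) ∈ F.V (k i) := by
      intro i
      rw [hg']
      have h1 := (F.normal (k i)).conj_mem' (m' i (g i) (g' i)) (hm1' i (g i) (g' i)) (g' i)
      rwa [mul_assoc] at h1
    obtain ⟨x, hx⟩ := lim_aux F k hk g hstep
    obtain ⟨x', hx'⟩ := lim_aux F k hk g' hstep'
    refine ⟨x, x', fun c hc i => ?_⟩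
    have h6 := (F.normal (k (i + 1))).conj_mem' _ (hx' i) (c * g (i + 1))
    have h7 := mul_mem h6 (hx i)
    have h8 := hsat i _ (hm2 i (g i) (g' i) c hc) _ h7
    rw [← hg, ← hg'] at h8
    have h9 : g' (i + 1) * c * g (i + 1) *
        ((c * g (i + 1))⁻¹ * ((g' (i + 1))⁻¹ * x') * (c * g (i + 1)) *
          ((g (i + 1))⁻¹ * x)) = x' * c * x := by group
    rwa [h9] at h8

end Pool.Agent.Y676.HN
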